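import Pool.Agent.H98.Cubic.Targets
import Pool.Agent.H98.Cubic.Basic

/-!
# The zeta function on the critical line by a truncated sum: module Z1 of MP_56c76e_nt
-/

set_option autoImplicit false

open Finset Filter Topology

namespace Pool.Agent.H22.Cubic

open Pool.Agent.H98.Cubic

/-- `(n+1)^{-s} - ∫_n^{n+1} x^{-s} dx` -/
noncomputable def G (n : ℕ) (s : ℂ) : ℂ :=
  ((n + 1 : ℝ) : ℂ) ^ (-s) -
    (((n + 1 : ℝ) : ℂ) ^ (-s + 1) / (-s + 1) - ((n : ℝ) : ℂ) ^ (-s + 1) / (-s + 1))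

lemma cpow_diff {n : ℕ} (hn : 1 ≤ n) {s : ℂ} (hs : 0 ≤ s.re) (h0 : s ≠ 0) {x : ℝ}
    (hx : x ∈ Set.Icc (n : ℝ) (n + 1)) :
    ‖((n + 1 : ℝ) : ℂ) ^ (-s) - (x : ℂ) ^ (-s)‖ ≤ ‖s‖ * (n : ℝ) ^ (-s.re - 1) := by
  have hn0 : (1 : ℝ) ≤ n := by exact_mod_cast hn
  have hx0 : 0 < x := by linarith [hx.1]
  have hC : 0 ≤ ‖s‖ * (n : ℝ) ^ (-s.re - 1) := by positivity
  have key := norm_image_sub_le_of_norm_deriv_le_segment' (a := x) (b := (n + 1 : ℝ))
    (f := fun y : ℝ => (y : ℂ) ^ (-s)) (f' := fun y : ℝ => -s * (y : ℂ) ^ (-s - 1))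
    (C := ‖s‖ * (n : ℝ) ^ (-s.re - 1)) ?_ ?_ (n + 1) (Set.right_mem_Icc.mpr hx.2)
  · refine key.trans ?_
    calc ‖s‖ * (n : ℝ) ^ (-s.re - 1) * (n + 1 - x) ≤ ‖s‖ * (n : ℝ) ^ (-s.re - 1) * 1 := by
          apply mul_le_mul_of_nonneg_left _ hC
          linarith [hx.1]
      _ = _ := mul_one _
  · intro y hy
    have hy0 : y ≠ 0 := by
      have := hy.1
      linarith
    exact (hasDerivAt_ofReal_cpow_const (x := y) (r := -s) hy0
      (neg_ne_zero.mpr h0)).hasDerivWithinAt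
  · intro y hy
    have hy0 : 0 < y := by linarith [hy.1]
    rw [norm_mul, norm_neg, Complex.norm_cpow_eq_rpow_re_of_pos hy0]
    apply mul_le_mul_of_nonneg_left _ (norm_nonneg _)
    have e : (-s - 1).re = -s.re - 1 := by simp
    rw [e]
    exact Real.rpow_le_rpow_of_nonpos (by linarith) (by linarith [hx.1, hy.1]) (by linarith)

lemma G_bound {n : ℕ} (hn : 1 ≤ n) {s : ℂ} (hs : 0 ≤ s.re) (h0 : s ≠ 0) (h1 : s ≠ 1) :
    ‖G n s‖ ≤ ‖s‖ * (n : ℝ) ^ (-s.re - 1) := by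
  have hn0 : (1 : ℝ) ≤ n := by exact_mod_cast hn
  have key := norm_image_sub_le_of_norm_deriv_le_segment' (a := (n : ℝ)) (b := (n + 1 : ℝ))
    (f := fun y : ℝ => ((n + 1 : ℝ) : ℂ) ^ (-s) * (y : ℂ) - (y : ℂ) ^ (-s + 1) / (-s + 1))
    (f' := fun y : ℝ => ((n + 1 : ℝ) : ℂ) ^ (-s) - (y : ℂ) ^ (-s))
    (C := ‖s‖ * (n : ℝ) ^ (-s.re - 1)) ?_ ?_ (n + 1) (Set.right_mem_Icc.mpr (by linarith))
  · have e : G n s = (((n + 1 : ℝ) : ℂ) ^ (-s) * ((n + 1 : ℝ) : ℂ) -
        ((n + 1 : ℝ) : ℂ) ^ (-s + 1) / (-s + 1)) - (((n + 1 : ℝ) : ℂ) ^ (-s) * ((n : ℝ) : ℂ) -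
        ((n : ℝ) : ℂ) ^ (-s + 1) / (-s + 1)) := by
      unfold G
      push_cast
      ring
    rw [e]
    refine key.trans (le_of_eq ?_)
    ring
  · intro y hy
    have hy0 : y ≠ 0 := by
      have := hy.1
      linarith
    have h2 := hasDerivAt_ofReal_cpow_const' (x := y) (r := -s) hy0 (by
      intro h
      apply h1
      linear_combination -h)
    have h3 : HasDerivAt (fun y : ℝ => ((n + 1 : ℝ) : ℂ) ^ (-s) * (y : ℂ))
        (((n + 1 : ℝ) : ℂ) ^ (-s) * 1) y := by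
      have := (hasDerivAt_id y).ofReal_comp
      simpa using this.const_mul (((n + 1 : ℝ) : ℂ) ^ (-s))
    rw [mul_one] at h3
    exact (h3.sub h2).hasDerivWithinAt
  · intro y hy
    exact cpow_diff hn hs h0 ⟨hy.1, hy.2.le⟩

/-- the domain of the identity theorem -/
def Dom (T : ℝ) : Set ℂ := {s : ℂ | 1 / 4 < s.re ∧ s.re < 3 ∧ 0 < s.im ∧ s.im < T}

lemma isOpen_Dom (T : ℝ) : IsOpen (Dom T) := by
  unfold Dom
  refine (isOpen_lt continuous_const Complex.continuous_re).inter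
    ((isOpen_lt Complex.continuous_re continuous_const).inter
    ((isOpen_lt continuous_const Complex.continuous_im).inter
      (isOpen_lt Complex.continuous_im continuous_const)))

lemma convex_Dom (T : ℝ) : Convex ℝ (Dom T) := by
  have h1 : Dom T = {s : ℂ | 1 / 4 < s.re} ∩ ({s : ℂ | s.re < 3} ∩
      ({s : ℂ | 0 < s.im} ∩ {s : ℂ | s.im < T})) := rfl
  rw [h1]
  exact (convex_halfSpace_re_gt _).inter ((convex_halfSpace_re_lt _).inter
    ((convex_halfSpace_im_gt _).inter (convex_halfSpace_im_lt _)))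

lemma dom_ne {T : ℝ} {s : ℂ} (h : s ∈ Dom T) : s ≠ 0 ∧ s ≠ 1 := by
  constructor
  · rintro rfl
    exact lt_irrefl _ h.2.2.1
  · rintro rfl
    exact lt_irrefl _ h.2.2.1

lemma dom_norm {T : ℝ} {s : ℂ} (h : s ∈ Dom T) : ‖s‖ ≤ 3 + T := by
  have h1 := Complex.norm_le_abs_re_add_abs_im s
  have h2 : |s.re| ≤ 3 := by
    rw [abs_of_pos (by linarith [h.1])]
    exact h.2.1.le
  have h3 : |s.im| ≤ T := by
    rw [abs_of_pos h.2.2.1]
    exact h.2.2.2.le
  linarith

lemma summable_G (X : ℕ) (hX : 1 ≤ X) {s : ℂ} (hs : 0 < s.re) (h0 : s ≠ 0) (h1 : s ≠ 1) :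
    Summable (fun j : ℕ => G (X + j) s) := by
  have h2 : Summable (fun n : ℕ => ‖s‖ * ((n : ℕ) : ℝ) ^ (-s.re - 1)) := by
    apply Summable.mul_left
    exact Real.summable_nat_rpow.mpr (by linarith)
  have h3 : Summable (fun j : ℕ => ‖s‖ * ((X + j : ℕ) : ℝ) ^ (-s.re - 1)) := by
    have := (summable_nat_add_iff X).mpr h2
    refine this.congr fun j => ?_
    rw [add_comm X j]
  exact Summable.of_norm_bounded h3 fun j => G_bound (by omega) hs.le h0 h1

lemma differentiableOn_tsum_G (X : ℕ) (hX : 1 ≤ X) (T : ℝ) :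
    DifferentiableOn ℂ (fun s => ∑' j : ℕ, G (X + j) s) (Dom T) := by
  rcases le_or_gt T 0 with hT | hT
  · have : Dom T = ∅ := by
      ext s
      simp only [Set.mem_empty_iff_false, iff_false]
      intro h
      linarith [h.2.2.1, h.2.2.2]
    rw [this]
    exact differentiableOn_empty
  have hsum : Summable (fun j : ℕ => (3 + T) * ((X + j : ℕ) : ℝ) ^ (-(5 / 4) : ℝ)) := by
    apply Summable.mul_left
    have := (summable_nat_add_iff X).mpr (Real.summable_nat_rpow.mpr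
      (show (-(5 / 4) : ℝ) < -1 by norm_num))
    refine this.congr fun j => ?_
    rw [add_comm X j]
  refine Complex.differentiableOn_tsum_of_summable_norm hsum ?_ (isOpen_Dom T) ?_
  · intro j s hs
    obtain ⟨h0, h1⟩ := dom_ne hs
    have hn : ((X + j : ℕ) : ℝ) ≠ 0 := by
      have : X + j ≠ 0 := by omega
      exact_mod_cast this
    have hn' : (((X + j : ℕ) : ℝ) : ℂ) ≠ 0 := by exact_mod_cast hn
    have hn1 : ((((X + j : ℕ) : ℝ) + 1 : ℝ) : ℂ) ≠ 0 := by
      have : (((X + j : ℕ) : ℝ) + 1 : ℝ) ≠ 0 := by positivity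
      exact_mod_cast this
    have h2 : -s + 1 ≠ 0 := by
      intro h
      apply h1
      linear_combination -h
    apply DifferentiableAt.differentiableWithinAt
    unfold G
    refine DifferentiableAt.sub ?_ (DifferentiableAt.sub ?_ ?_)
    · exact (differentiable_id.neg s).const_cpow (Or.inl hn1)
    · exact ((differentiable_id.neg.add_const 1 s).const_cpow (Or.inl hn1)).div
        (differentiable_id.neg.add_const 1 s) h2
    · exact ((differentiable_id.neg.add_const 1 s).const_cpow (Or.inl hn')).div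
        (differentiable_id.neg.add_const 1 s) h2
  · intro j s hs
    obtain ⟨h0, h1⟩ := dom_ne hs
    refine (G_bound (by omega) (by linarith [hs.1]) h0 h1).trans ?_
    have hXj : (1 : ℝ) ≤ ((X + j : ℕ) : ℝ) := by
      have : 1 ≤ X + j := by omega
      exact_mod_cast this
    apply mul_le_mul (dom_norm hs) _ (by positivity) (by linarith)
    exact Real.rpow_le_rpow_of_exponent_le hXj (by linarith [hs.1])

lemma tsum_G_eq (X : ℕ) (hX : 1 ≤ X) {s : ℂ} (hs : 1 < s.re) :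
    ∑' j : ℕ, G (X + j) s = riemannZeta s - ∑ n ∈ range X, 1 / ((n : ℂ) + 1) ^ s -
      ((X : ℝ) : ℂ) ^ (-s + 1) / (s - 1) := by
  have h0 : s ≠ 0 := by rintro rfl; simp at hs; linarith
  have h1 : s ≠ 1 := by rintro rfl; simp at hs
  have h1' : -s + 1 ≠ 0 := by
    intro h
    apply h1
    linear_combination -h
  have hsum := summable_G X hX (by linarith : 0 < s.re) h0 h1
  have hf : Summable (fun n : ℕ => 1 / ((n : ℂ) + 1) ^ s) := by
    have := (summable_nat_add_iff 1).mpr (Complex.summable_one_div_nat_cpow.mpr hs)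
    refine this.congr fun n => ?_
    push_cast
    rfl
  have hf' : Summable (fun n : ℕ => 1 / (((n + X : ℕ) : ℂ) + 1) ^ s) :=
    (summable_nat_add_iff X).mpr hf
  have hz : ∑ n ∈ range X, 1 / ((n : ℂ) + 1) ^ s + ∑' n : ℕ, 1 / (((n + X : ℕ) : ℂ) + 1) ^ s =
      riemannZeta s := by
    rw [zeta_eq_tsum_one_div_nat_add_one_cpow hs]
    exact hf.sum_add_tsum_nat_add X
  set Aa : ℕ → ℂ := fun n => ((n : ℝ) : ℂ) ^ (-s + 1) / (-s + 1) with hA
  have hpart : ∀ m : ℕ, ∑ j ∈ range m, G (X + j) s =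
      ∑ j ∈ range m, 1 / (((j + X : ℕ) : ℂ) + 1) ^ s - (Aa (X + m) - Aa X) := by
    intro m
    have e1 : Aa (X + m) - Aa X = ∑ j ∈ range m, (Aa (X + (j + 1)) - Aa (X + j)) := by
      rw [Finset.sum_range_sub (fun j => Aa (X + j))]
      simp
    rw [e1, ← Finset.sum_sub_distrib]
    apply Finset.sum_congr rfl
    intro j _
    unfold G
    simp only [hA]
    have e2 : (((X + j : ℕ) : ℝ) + 1 : ℝ) = ((X + (j + 1) : ℕ) : ℝ) := by push_cast; ring
    have e3 : ((j + X : ℕ) : ℂ) + 1 = (((X + (j + 1) : ℕ) : ℝ) : ℂ) := by push_cast; ring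
    rw [e2, e3, one_div, ← Complex.cpow_neg]
  have hA0 : Tendsto (fun m => Aa (X + m)) atTop (𝓝 0) := by
    rw [tendsto_zero_iff_norm_tendsto_zero]
    have h2 : Tendsto (fun n : ℕ => (n : ℝ) ^ (-(s.re - 1)) / ‖-s + 1‖) atTop (𝓝 0) := by
      have := (tendsto_rpow_neg_atTop (show 0 < s.re - 1 by linarith)).comp
        (tendsto_natCast_atTop_atTop (R := ℝ))
      simpa [Function.comp_def] using this.div_const ‖-s + 1‖
    have h3 := h2.comp (tendsto_add_atTop_nat X)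
    refine h3.congr fun m => ?_
    simp only [Function.comp_apply, hA]
    have hpos : (0 : ℝ) < ((X + m : ℕ) : ℝ) := by
      have : 0 < X + m := by omega
      exact_mod_cast this
    rw [norm_div, Complex.norm_cpow_eq_rpow_re_of_pos hpos, add_comm m X]
    congr 2
    simp
    ring
  have hlim : Tendsto (fun m => ∑ j ∈ range m, G (X + j) s) atTop
      (𝓝 (∑' n : ℕ, 1 / (((n + X : ℕ) : ℂ) + 1) ^ s - (0 - Aa X))) := by
    simp_rw [hpart]
    exact hf'.hasSum.tendsto_sum_nat.sub (hA0.sub_const _)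
  have huniq := tendsto_nhds_unique hsum.hasSum.tendsto_sum_nat hlim
  rw [huniq]
  have e4 : Aa X = -(((X : ℝ) : ℂ) ^ (-s + 1) / (s - 1)) := by
    simp only [hA]
    rw [show s - 1 = -(-s + 1) by ring, div_neg, neg_neg]
  rw [e4, ← hz]
  ring

lemma tsum_G_eq' (X : ℕ) (hX : 1 ≤ X) {s : ℂ} (hs : 1 / 4 < s.re) (hs' : s.re < 3)
    (hs0 : 0 < s.im) :
    ∑' j : ℕ, G (X + j) s = riemannZeta s - ∑ n ∈ range X, 1 / ((n : ℂ) + 1) ^ s -
      ((X : ℝ) : ℂ) ^ (-s + 1) / (s - 1) := by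
  set T : ℝ := s.im + 1 with hT
  have hmem : s ∈ Dom T := ⟨hs, hs', hs0, by linarith⟩
  have hX0 : ((X : ℝ) : ℂ) ≠ 0 := by
    have : X ≠ 0 := by omega
    exact_mod_cast this
  set s₁ : ℂ := 2 + ((s.im : ℝ) : ℂ) * Complex.I with hs₁
  have hre : s₁.re = 2 := by simp [hs₁]
  have him : s₁.im = s.im := by simp [hs₁]
  have hmem1 : s₁ ∈ Dom T := ⟨by rw [hre]; norm_num, by rw [hre]; norm_num, by rw [him]; exact hs0,
    by rw [him]; linarith⟩
  have hf : DifferentiableOn ℂ (fun s => riemannZeta s - ∑ n ∈ range X, 1 / ((n : ℂ) + 1) ^ s -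
      ((X : ℝ) : ℂ) ^ (-s + 1) / (s - 1)) (Dom T) := by
    intro z hz
    obtain ⟨h0, h1⟩ := dom_ne hz
    apply DifferentiableAt.differentiableWithinAt
    refine DifferentiableAt.sub (DifferentiableAt.sub (differentiableAt_riemannZeta h1) ?_) ?_
    · apply DifferentiableAt.fun_sum
      intro n _
      have hn : ((n : ℂ) + 1) ≠ 0 := Nat.cast_add_one_ne_zero n
      refine DifferentiableAt.div (differentiableAt_const _)
        (differentiableAt_id.const_cpow (Or.inl hn)) ?_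
      exact (Complex.cpow_ne_zero_iff.mpr (Or.inl hn))
    · exact ((differentiable_id.neg.add_const 1 z).const_cpow (Or.inl hX0)).div
        (differentiable_id.sub_const 1 z) (sub_ne_zero.mpr h1)
  have han1 := (differentiableOn_tsum_G X hX T).analyticOnNhd (isOpen_Dom T)
  have han2 := hf.analyticOnNhd (isOpen_Dom T)
  have hev : (fun s => ∑' j : ℕ, G (X + j) s) =ᶠ[𝓝 s₁] (fun s => riemannZeta s -
      ∑ n ∈ range X, 1 / ((n : ℂ) + 1) ^ s - ((X : ℝ) : ℂ) ^ (-s + 1) / (s - 1)) := by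
    have hopen : IsOpen {z : ℂ | 1 < z.re} := isOpen_lt continuous_const Complex.continuous_re
    have : {z : ℂ | 1 < z.re} ∈ 𝓝 s₁ := hopen.mem_nhds (by
      show 1 < s₁.re
      rw [hre]; norm_num)
    filter_upwards [this] with z hz
    exact tsum_G_eq X hX hz
  exact han1.eqOn_of_preconnected_of_eventuallyEq han2 (convex_Dom T).isPreconnected hmem1 hev hmem

lemma sum_rpow_le (X : ℕ) (hX : 1 ≤ X) (m : ℕ) :
    ∑ j ∈ range m, ((X + j : ℕ) : ℝ) ^ (-(3 / 2) : ℝ) ≤ 6 / Real.sqrt X := by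
  have hterm : ∀ n : ℕ, 1 ≤ n → (n : ℝ) ^ (-(3 / 2) : ℝ) ≤
      6 * (1 / Real.sqrt n - 1 / Real.sqrt ((n : ℝ) + 1)) := by
    intro n hn
    have hn0 : (1 : ℝ) ≤ n := by exact_mod_cast hn
    set a := Real.sqrt n with ha
    set b := Real.sqrt ((n : ℝ) + 1) with hb
    have ha0 : 0 < a := Real.sqrt_pos.mpr (by linarith)
    have hb0 : 0 < b := Real.sqrt_pos.mpr (by linarith)
    have ha2 : a ^ 2 = n := Real.sq_sqrt (by linarith)
    have hb2 : b ^ 2 = n + 1 := Real.sq_sqrt (by linarith)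
    have hab : a ≤ b := Real.sqrt_le_sqrt (by linarith)
    have hb3 : b ≤ 3 / 2 * a := by
      apply Real.sqrt_le_iff.mpr
      constructor
      · positivity
      · nlinarith
    have e1 : (n : ℝ) ^ (-(3 / 2) : ℝ) = 1 / a ^ 3 := by
      rw [Real.rpow_neg (by linarith), one_div]
      congr 1
      rw [ha, Real.sqrt_eq_rpow, ← Real.rpow_natCast, ← Real.rpow_mul (by linarith)]
      norm_num
    have e2 : 1 / a - 1 / b = 1 / (a * b * (a + b)) := by
      have : (b - a) * (a + b) = 1 := by nlinarith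
      field_simp
      nlinarith
    rw [e1, e2, ← mul_div_assoc, mul_one, div_le_div_iff₀ (by positivity) (by positivity)]
    have h3 : a * b * (a + b) ≤ a * (3 / 2 * a) * (a + 3 / 2 * a) := by gcongr
    nlinarith [pow_pos ha0 3]
  have hX0 : (0 : ℝ) < X := by exact_mod_cast hX
  calc ∑ j ∈ range m, ((X + j : ℕ) : ℝ) ^ (-(3 / 2) : ℝ)
      ≤ ∑ j ∈ range m, 6 * (1 / Real.sqrt ((X + j : ℕ) : ℝ) -
          1 / Real.sqrt ((X + (j + 1) : ℕ) : ℝ)) := by
        apply Finset.sum_le_sum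
        intro j _
        have := hterm (X + j) (by omega)
        refine this.trans (le_of_eq ?_)
        congr 3
        push_cast
        ring_nf
    _ = 6 * (1 / Real.sqrt X - 1 / Real.sqrt ((X + m : ℕ) : ℝ)) := by
        rw [← Finset.mul_sum, Finset.sum_range_sub' (fun j => 1 / Real.sqrt ((X + j : ℕ) : ℝ))]
        simp
    _ ≤ 6 / Real.sqrt X := by
        have : 0 ≤ 1 / Real.sqrt ((X + m : ℕ) : ℝ) := by positivity
        rw [div_eq_mul_one_div 6]
        linarith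

theorem z1 : TZ1 := by
  refine ⟨12, by norm_num, ?_⟩
  intro t X ht hX
  set s : ℂ := 1 / 2 + t * Complex.I with hs
  have hre : s.re = 1 / 2 := by simp [hs]
  have him : s.im = t := by simp [hs]
  have h0 : s ≠ 0 := by
    intro h
    rw [h] at hre
    norm_num at hre
  have h1 : s ≠ 1 := by
    intro h
    rw [h] at hre
    norm_num at hre
  have key := tsum_G_eq' X hX (s := s) (by rw [hre]; norm_num) (by rw [hre]; norm_num)
    (by rw [him]; linarith)
  have e1 : ∑ n ∈ range X, 1 / ((n : ℂ) + 1) ^ s = ∑ n ∈ Icc 1 X, zt n t := by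
    have e2 : ∑ n ∈ Icc 1 X, zt n t = ∑ n ∈ range X, zt (n + 1) t := by
      rw [Finset.range_eq_Ico, Finset.sum_Ico_add' (fun n => zt n t) 0 X 1]
      rfl
    rw [e2]
    apply Finset.sum_congr rfl
    intro n _
    unfold zt ei
    have hn : (0 : ℝ) < ((n + 1 : ℕ) : ℝ) := by positivity
    have hnc : ((n : ℂ) + 1) ≠ 0 := Nat.cast_add_one_ne_zero n
    have e3 : ((n : ℂ) + 1) = (((n + 1 : ℕ) : ℝ) : ℂ) := by push_cast; ring
    rw [one_div, ← Complex.cpow_neg, Complex.cpow_def_of_ne_zero hnc, e3, ← Complex.ofReal_log hn.le]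
    have e4 : (1 / Real.sqrt ((n + 1 : ℕ) : ℝ) : ℝ) =
        Real.exp (-(1 / 2) * Real.log ((n + 1 : ℕ) : ℝ)) := by
      rw [Real.sqrt_eq_rpow, Real.rpow_def_of_pos hn, one_div, ← Real.exp_neg]
      congr 1
      ring
    rw [e4, Complex.ofReal_exp, ← Complex.exp_add]
    congr 1
    rw [hs]
    push_cast
    ring
  have e5 : riemannZeta s - ∑ n ∈ Icc 1 X, zt n t -
      (X : ℂ) ^ (1 / 2 - t * Complex.I) / (-1 / 2 + t * Complex.I) = ∑' j : ℕ, G (X + j) s := by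
    rw [key, e1]
    have e6 : -s + 1 = 1 / 2 - t * Complex.I := by rw [hs]; ring
    have e7 : s - 1 = -1 / 2 + t * Complex.I := by rw [hs]; ring
    rw [e6, e7]
    norm_cast
  rw [e5]
  have hns : ‖s‖ ≤ 3 / 2 * t := by
    have h2 := Complex.norm_le_abs_re_add_abs_im s
    rw [hre, him, abs_of_pos (by norm_num : (0 : ℝ) < 1 / 2), abs_of_pos (by linarith)] at h2
    linarith
  have hb : ∀ j : ℕ, ‖G (X + j) s‖ ≤ ‖s‖ * ((X + j : ℕ) : ℝ) ^ (-(3 / 2) : ℝ) := by
    intro j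
    have := G_bound (n := X + j) (by omega) (s := s) (by rw [hre]; norm_num) h0 h1
    rw [hre] at this
    norm_num at this ⊢
    exact this
  have hX0 : (0 : ℝ) < X := by exact_mod_cast hX
  have hsX : 0 < Real.sqrt X := Real.sqrt_pos.mpr hX0
  have hpart : ∀ m : ℕ, ∑ j ∈ range m, ‖G (X + j) s‖ ≤ ‖s‖ * (6 / Real.sqrt X) := by
    intro m
    calc ∑ j ∈ range m, ‖G (X + j) s‖ ≤
        ∑ j ∈ range m, ‖s‖ * ((X + j : ℕ) : ℝ) ^ (-(3 / 2) : ℝ) :=
          Finset.sum_le_sum fun j _ => hb j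
      _ = ‖s‖ * ∑ j ∈ range m, ((X + j : ℕ) : ℝ) ^ (-(3 / 2) : ℝ) := by rw [Finset.mul_sum]
      _ ≤ _ := mul_le_mul_of_nonneg_left (sum_rpow_le X hX m) (norm_nonneg _)
  have hsumm : Summable (fun j : ℕ => ‖G (X + j) s‖) :=
    summable_of_sum_range_le (fun j => norm_nonneg _) hpart
  calc ‖∑' j : ℕ, G (X + j) s‖ ≤ ∑' j : ℕ, ‖G (X + j) s‖ := norm_tsum_le_tsum_norm hsumm
    _ ≤ ‖s‖ * (6 / Real.sqrt X) := hsumm.tsum_le_of_sum_range_le hpart
    _ ≤ (3 / 2 * t) * (6 / Real.sqrt X) := by gcongr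
    _ ≤ 12 * t / Real.sqrt X := by
      rw [mul_div_assoc', div_le_div_iff_of_pos_right hsX]
      linarith

end Pool.Agent.H22.Cubic
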