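import Pool.Agent.H98.Cubic.Targets
import Pool.Agent.H98.Cubic.Basic

/-!
# An oscillatory Gamma integral: module Z2 of MP_56c76e_nt
-/

set_option autoImplicit false

open Finset Filter Topology MeasureTheory

namespace Pool.Agent.H22.Cubic

open Pool.Agent.H98.Cubic

/-- the integrand -/
noncomputable def F (t : ℝ) (μ : ℕ) (δ u : ℝ) : ℂ :=
  ((Real.exp (-δ * u) / Real.sqrt u : ℝ) : ℂ) * ei (2 * Real.pi * μ * u - t * Real.log u)

lemma two_pi_mu {μ : ℕ} (hμ : 1 ≤ μ) : 6 < 2 * Real.pi * μ := by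
  have h1 : (1 : ℝ) ≤ μ := by exact_mod_cast hμ
  have h2 := Real.pi_gt_three
  nlinarith

lemma tail_bound {δ t R R' : ℝ} {μ : ℕ} (hδ : 0 ≤ δ) (ht : 1 ≤ t) (hR : t ≤ R) (hμ : 1 ≤ μ)
    (hRR : R ≤ R') : ‖∫ u in R..R', F t μ δ u‖ ≤ 4 * (1 / Real.sqrt R) := by
  have hR0 : 0 < R := by linarith
  have hpos : ∀ u ∈ Set.Icc R R', 0 < u := fun u hu => lt_of_lt_of_le hR0 hu.1
  have hh' : ∀ u ∈ Set.Icc R R', 1 ≤ 2 * Real.pi * μ - t / u := by
    intro u hu
    have h1 := two_pi_mu hμ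
    have h2 : t / u ≤ 1 := by
      rw [div_le_one (hpos u hu)]
      exact hR.trans hu.1
    linarith
  have key := norm_integral_deriv_ei_le' (M := 1 / Real.sqrt R) hRR
    (h := fun u => 2 * Real.pi * μ * u - t * Real.log u)
    (h' := fun u => 2 * Real.pi * μ - t / u)
    (p := fun u => Real.exp (-δ * u) * (Real.sqrt u)⁻¹ * (2 * Real.pi * μ - t / u)⁻¹)
    (p' := fun u => (Real.exp (-δ * u) * (-δ) * (Real.sqrt u)⁻¹ +
      Real.exp (-δ * u) * (-(1 / (2 * Real.sqrt u)) / Real.sqrt u ^ 2)) *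
        (2 * Real.pi * μ - t / u)⁻¹ +
      Real.exp (-δ * u) * (Real.sqrt u)⁻¹ * (-(t / u ^ 2) / (2 * Real.pi * μ - t / u) ^ 2))
    ?_ ?_ ?_ ?_ ?_ ?_ ?_
  · refine le_trans (le_of_eq ?_) key
    congr 1
    apply intervalIntegral.integral_congr
    intro u hu
    rw [Set.uIcc_of_le hRR] at hu
    simp only [F]
    congr 2
    have h1 := hh' u hu
    field_simp
  · intro u hu
    have h1 := hpos u hu
    have h2 := ((hasDerivAt_id u).const_mul (2 * Real.pi * μ)).sub
      ((Real.hasDerivAt_log h1.ne').const_mul t)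
    refine h2.congr_deriv ?_
    simp [div_eq_mul_inv]
  · intro u hu
    have h1 := hpos u hu
    have h1' : Real.sqrt u ≠ 0 := (Real.sqrt_pos.mpr h1).ne'
    have d1 : HasDerivAt (fun u => Real.exp (-δ * u)) (Real.exp (-δ * u) * (-δ)) u := by
      have := ((hasDerivAt_id u).const_mul (-δ)).exp
      simpa using this
    have d2 : HasDerivAt (fun u => (Real.sqrt u)⁻¹) (-(1 / (2 * Real.sqrt u)) / Real.sqrt u ^ 2) u :=
      (Real.hasDerivAt_sqrt h1.ne').inv h1'
    have d3 : HasDerivAt (fun u => 2 * Real.pi * μ - t / u) (t / u ^ 2) u := by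
      have := ((hasDerivAt_const u t).div (hasDerivAt_id u) h1.ne').const_sub (2 * Real.pi * μ)
      refine this.congr_deriv ?_
      simp
      ring
    have d4 := d3.inv (by have := hh' u hu; linarith : (2 * Real.pi * μ - t / u) ≠ 0)
    exact (d1.mul d2).mul d4
  · apply ContinuousOn.sub continuousOn_const
    exact continuousOn_const.div continuousOn_id fun u hu => (hpos u hu).ne'
  · have c1 : ContinuousOn (fun u : ℝ => Real.exp (-δ * u)) (Set.Icc R R') := by fun_prop
    have c2 : ContinuousOn (fun u : ℝ => Real.sqrt u) (Set.Icc R R') :=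
      Real.continuous_sqrt.continuousOn
    have c3 : ContinuousOn (fun u : ℝ => 2 * Real.pi * μ - t / u) (Set.Icc R R') := by
      apply ContinuousOn.sub continuousOn_const
      exact continuousOn_const.div continuousOn_id fun u hu => (hpos u hu).ne'
    have n2 : ∀ u ∈ Set.Icc R R', Real.sqrt u ≠ 0 := fun u hu =>
      (Real.sqrt_pos.mpr (hpos u hu)).ne'
    have n3 : ∀ u ∈ Set.Icc R R', 2 * Real.pi * μ - t / u ≠ 0 := fun u hu => by
      have := hh' u hu
      linarith
    have n4 : ∀ u ∈ Set.Icc R R', u ^ 2 ≠ 0 := fun u hu => pow_ne_zero 2 (hpos u hu).ne'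
    have c5 : ContinuousOn (fun u : ℝ => u ^ 2) (Set.Icc R R') := by fun_prop
    refine ContinuousOn.add (ContinuousOn.mul (ContinuousOn.add ?_ ?_) (c3.inv₀ n3)) ?_
    · exact (c1.mul continuousOn_const).mul (c2.inv₀ n2)
    · refine c1.mul (ContinuousOn.div (ContinuousOn.neg ?_) (c2.pow 2)
        fun u hu => pow_ne_zero 2 (n2 u hu))
      exact continuousOn_const.div (continuousOn_const.mul c2)
        fun u hu => mul_ne_zero two_ne_zero (n2 u hu)
    · refine (c1.mul (c2.inv₀ n2)).mul (ContinuousOn.div (ContinuousOn.neg ?_) (c3.pow 2)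
        fun u hu => pow_ne_zero 2 (n3 u hu))
      exact continuousOn_const.div c5 n4
  · right
    intro u hu
    have h1 := hpos u hu
    have h2 := hh' u hu
    have h3 : 0 < Real.sqrt u := Real.sqrt_pos.mpr h1
    have h4 : 0 < 2 * Real.pi * μ - t / u := by linarith
    have h5 := Real.exp_pos (-δ * u)
    have a1 : 0 ≤ Real.exp (-δ * u) * δ * (Real.sqrt u)⁻¹ * (2 * Real.pi * μ - t / u)⁻¹ := by
      positivity
    have a2 : 0 ≤ Real.exp (-δ * u) * ((1 / (2 * Real.sqrt u)) / Real.sqrt u ^ 2) *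
        (2 * Real.pi * μ - t / u)⁻¹ := by positivity
    have a3 : 0 ≤ Real.exp (-δ * u) * (Real.sqrt u)⁻¹ *
        ((t / u ^ 2) / (2 * Real.pi * μ - t / u) ^ 2) := by positivity
    have e : (Real.exp (-δ * u) * (-δ) * (Real.sqrt u)⁻¹ +
      Real.exp (-δ * u) * (-(1 / (2 * Real.sqrt u)) / Real.sqrt u ^ 2)) *
        (2 * Real.pi * μ - t / u)⁻¹ +
      Real.exp (-δ * u) * (Real.sqrt u)⁻¹ * (-(t / u ^ 2) / (2 * Real.pi * μ - t / u) ^ 2) =
      -(Real.exp (-δ * u) * δ * (Real.sqrt u)⁻¹ * (2 * Real.pi * μ - t / u)⁻¹ +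
        Real.exp (-δ * u) * ((1 / (2 * Real.sqrt u)) / Real.sqrt u ^ 2) *
        (2 * Real.pi * μ - t / u)⁻¹ + Real.exp (-δ * u) * (Real.sqrt u)⁻¹ *
        ((t / u ^ 2) / (2 * Real.pi * μ - t / u) ^ 2)) := by ring
    rw [e]
    linarith
  all_goals
    have hb : ∀ u ∈ Set.Icc R R', |Real.exp (-δ * u) * (Real.sqrt u)⁻¹ *
        (2 * Real.pi * μ - t / u)⁻¹| ≤ 1 / Real.sqrt R := by
      intro u hu
      have h1 := hpos u hu
      have h2 := hh' u hu
      have h3 : 0 < Real.sqrt u := Real.sqrt_pos.mpr h1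
      have h3' : 0 < Real.sqrt R := Real.sqrt_pos.mpr hR0
      have h5 : Real.exp (-δ * u) ≤ 1 := by
        rw [Real.exp_le_one_iff]
        nlinarith
      have h6 : (2 * Real.pi * μ - t / u)⁻¹ ≤ 1 := inv_le_one_of_one_le₀ h2
      have h7 : (Real.sqrt u)⁻¹ ≤ (Real.sqrt R)⁻¹ := inv_anti₀ h3' (Real.sqrt_le_sqrt hu.1)
      have h8 : 0 < 2 * Real.pi * μ - t / u := by linarith
      rw [abs_of_nonneg (by positivity)]
      calc Real.exp (-δ * u) * (Real.sqrt u)⁻¹ * (2 * Real.pi * μ - t / u)⁻¹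
          ≤ 1 * (Real.sqrt R)⁻¹ * 1 := by gcongr
        _ = 1 / Real.sqrt R := by ring
  · exact hb R (Set.left_mem_Icc.mpr hRR)
  · exact hb R' (Set.right_mem_Icc.mpr hRR)

/-- the integrand of the Laplace transform -/
noncomputable def gg (a r : ℂ) (u : ℝ) : ℂ := (u : ℂ) ^ (a - 1) * Complex.exp (-(r * u))

lemma norm_gg {a r : ℂ} {u : ℝ} (hu : 0 < u) :
    ‖gg a r u‖ = u ^ (a.re - 1) * Real.exp (-r.re * u) := by
  unfold gg
  rw [norm_mul, Complex.norm_cpow_eq_rpow_re_of_pos hu, Complex.norm_exp]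
  simp

lemma continuousOn_gg (a r : ℂ) : ContinuousOn (gg a r) (Set.Ioi 0) := by
  unfold gg
  refine ContinuousOn.mul ?_ (by fun_prop)
  intro u hu
  refine ContinuousAt.continuousWithinAt ?_
  exact Complex.continuousAt_ofReal_cpow_const u (a - 1) (Or.inr (ne_of_gt hu))

lemma integrableOn_gg {a r : ℂ} (ha : 0 < a.re) (hr : 0 < r.re) :
    IntegrableOn (gg a r) (Set.Ioi 0) := by
  have h1 : IntegrableOn (fun x : ℝ => x ^ (a.re - 1) * Real.exp (-r.re * x ^ (1 : ℝ)))
      (Set.Ioi 0) := integrableOn_rpow_mul_exp_neg_mul_rpow (by linarith) (by norm_num) hr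
  refine MeasureTheory.Integrable.mono' h1 ?_ ?_
  · exact (continuousOn_gg a r).aestronglyMeasurable measurableSet_Ioi
  · refine (ae_restrict_iff' measurableSet_Ioi).mpr (Eventually.of_forall fun u hu => ?_)
    rw [norm_gg hu, Real.rpow_one]

lemma hasDerivAt_gg {a r : ℂ} (ha : 0 < a.re) (hr : 0 < r.re) :
    DifferentiableAt ℂ (fun r => ∫ u in Set.Ioi (0 : ℝ), gg a r u) r := by
  have hs : Metric.ball r (r.re / 2) ∈ 𝓝 r := Metric.ball_mem_nhds r (by linarith)
  have hmem : ∀ x ∈ Metric.ball r (r.re / 2), r.re / 2 ≤ x.re := by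
    intro x hx
    rw [Metric.mem_ball, Complex.dist_eq] at hx
    have h1 := (Complex.abs_re_le_norm (x - r)).trans hx.le
    rw [Complex.sub_re] at h1
    have := (abs_le.mp h1).1
    linarith
  have key := hasDerivAt_integral_of_dominated_loc_of_deriv_le (μ := volume.restrict (Set.Ioi (0:ℝ)))
    (F := fun x u => gg a x u) (F' := fun x u => -(u * gg a x u)) (x₀ := r)
    (bound := fun u : ℝ => u ^ a.re * Real.exp (-(r.re / 2) * u ^ (1 : ℝ))) hs ?_ ?_ ?_ ?_ ?_ ?_
  · exact key.2.differentiableAt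
  · exact Eventually.of_forall fun x =>
      (continuousOn_gg a x).aestronglyMeasurable measurableSet_Ioi
  · exact integrableOn_gg ha hr
  · have : ContinuousOn (fun u : ℝ => -((u : ℂ) * gg a r u)) (Set.Ioi 0) :=
      ((Complex.continuous_ofReal.continuousOn).mul (continuousOn_gg a r)).neg
    exact this.aestronglyMeasurable measurableSet_Ioi
  · refine (ae_restrict_iff' measurableSet_Ioi).mpr (Eventually.of_forall fun u hu x hx => ?_)
    have hu0 : 0 < u := hu
    rw [norm_neg, norm_mul, norm_gg hu0, Complex.norm_real, Real.norm_eq_abs, abs_of_pos hu0,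
      Real.rpow_one, ← mul_assoc]
    have e1 : u * u ^ (a.re - 1) = u ^ a.re := by
      rw [mul_comm, ← Real.rpow_add_one hu0.ne']
      congr 1
      ring
    rw [e1]
    have := hmem x hx
    gcongr
  · exact integrableOn_rpow_mul_exp_neg_mul_rpow (by linarith) (by norm_num) (by linarith)
  · refine Eventually.of_forall fun u x _ => ?_
    unfold gg
    have h2 : HasDerivAt (fun x : ℂ => Complex.exp (-(x * u))) (Complex.exp (-(x * u)) * (-(1 * u))) x :=
      (((hasDerivAt_id x).mul_const (u : ℂ)).neg).cexp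
    refine (h2.const_mul ((u : ℂ) ^ (a - 1))).congr_deriv ?_
    ring

theorem laplace {a r : ℂ} (ha : 0 < a.re) (hr : 0 < r.re) :
    ∫ u in Set.Ioi (0 : ℝ), gg a r u = (1 / r) ^ a * Complex.Gamma a := by
  set U : Set ℂ := {z : ℂ | 0 < z.re} with hU
  have hUo : IsOpen U := isOpen_lt continuous_const Complex.continuous_re
  have hUc : IsPreconnected U := (convex_halfSpace_re_gt 0).isPreconnected
  have h1 : AnalyticOnNhd ℂ (fun r => ∫ u in Set.Ioi (0 : ℝ), gg a r u) U := by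
    refine DifferentiableOn.analyticOnNhd (fun z hz => ?_) hUo
    exact (hasDerivAt_gg ha hz).differentiableWithinAt
  have h2 : AnalyticOnNhd ℂ (fun r : ℂ => (1 / r) ^ a * Complex.Gamma a) U := by
    refine DifferentiableOn.analyticOnNhd (fun z hz => ?_) hUo
    have hz0 : z ≠ 0 := by
      rintro rfl
      simp [hU] at hz
    have hz' : 0 < z.re := hz
    have hs : 1 / z ∈ Complex.slitPlane := by
      rw [Complex.mem_slitPlane_iff]
      left
      rw [one_div, Complex.inv_re]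
      exact div_pos hz' (Complex.normSq_pos.mpr hz0)
    have hd : DifferentiableAt ℂ (fun r : ℂ => (1 / r)) z := by
      simp only [one_div]
      exact differentiableAt_inv hz0
    exact ((hd.cpow_const hs).mul_const _).differentiableWithinAt
  have h3 : ∃ᶠ z in 𝓝[≠] (1 : ℂ), (∫ u in Set.Ioi (0 : ℝ), gg a z u) =
      (1 / z) ^ a * Complex.Gamma a := by
    have ht : Tendsto (fun n : ℕ => ((1 + 1 / ((n : ℝ) + 1) : ℝ) : ℂ)) atTop (𝓝[≠] 1) := by
      rw [tendsto_nhdsWithin_iff]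
      constructor
      · have h4 : Tendsto (fun n : ℕ => 1 + 1 / ((n : ℝ) + 1)) atTop (𝓝 (1 + 0)) :=
          tendsto_const_nhds.add tendsto_one_div_add_atTop_nhds_zero_nat
        rw [add_zero] at h4
        have := (Complex.continuous_ofReal.tendsto 1).comp h4
        simpa [Function.comp_def] using this
      · refine Eventually.of_forall fun n => ?_
        simp only [Set.mem_compl_iff, Set.mem_singleton_iff]
        intro h
        have h5 : (1 + 1 / ((n : ℝ) + 1) : ℝ) = 1 := by exact_mod_cast h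
        have h6 : (0 : ℝ) < 1 / ((n : ℝ) + 1) := by positivity
        linarith
    refine ht.frequently (Frequently.of_forall fun n => ?_)
    have hpos : (0 : ℝ) < 1 + 1 / ((n : ℝ) + 1) := by positivity
    have := Complex.integral_cpow_mul_exp_neg_mul_Ioi ha hpos
    exact this
  exact h1.eqOn_of_preconnected_of_frequently_eq h2 hUc (by simp [hU]) h3 hr

/-- the parameter of the Laplace transform -/
noncomputable def rr (μ : ℕ) (δ : ℝ) : ℂ := (δ : ℂ) - 2 * Real.pi * μ * Complex.I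

lemma inv_sqrt_eq {u : ℝ} (hu : 0 < u) : 1 / Real.sqrt u = Real.exp (-(Real.log u / 2)) := by
  rw [Real.exp_neg, Real.exp_half, Real.exp_log hu, one_div]

lemma F_eq {t δ u : ℝ} {μ : ℕ} (hu : 0 < u) :
    F t μ δ u = (u : ℂ) ^ ((1 / 2 - t * Complex.I : ℂ) - 1) * Complex.exp (-(rr μ δ * u)) := by
  have h1 : Real.exp (-δ * u) / Real.sqrt u = Real.exp (-δ * u) * (1 / Real.sqrt u) := by ring
  unfold F ei rr
  rw [h1, inv_sqrt_eq hu, ← Real.exp_add, Complex.cpow_def_of_ne_zero (by exact_mod_cast hu.ne'),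
    ← Complex.ofReal_log hu.le]
  push_cast
  rw [← Complex.exp_add, ← Complex.exp_add]
  congr 1
  ring

lemma norm_F {t δ u : ℝ} {μ : ℕ} : ‖F t μ δ u‖ = Real.exp (-δ * u) / Real.sqrt u := by
  unfold F
  rw [norm_mul, norm_ei, mul_one, Complex.norm_real, Real.norm_eq_abs, abs_of_nonneg]
  positivity

lemma continuousOn_F (t δ : ℝ) (μ : ℕ) : ContinuousOn (F t μ δ) (Set.Ioi 0) := by
  unfold F
  refine ContinuousOn.mul ?_ ?_
  · refine Complex.continuous_ofReal.comp_continuousOn ?_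
    refine ContinuousOn.div (by fun_prop) Real.continuous_sqrt.continuousOn ?_
    intro u hu
    exact (Real.sqrt_pos.mpr hu).ne'
  · refine continuous_ei.comp_continuousOn ?_
    refine ContinuousOn.sub (by fun_prop) ?_
    refine continuousOn_const.mul ?_
    exact Real.continuousOn_log.mono fun u hu => (ne_of_gt hu : u ≠ 0)

lemma integrableOn_F {t δ : ℝ} {μ : ℕ} (hδ : 0 < δ) : IntegrableOn (F t μ δ) (Set.Ioi 0) := by
  have h1 : IntegrableOn (fun x : ℝ => x ^ (-1 / 2 : ℝ) * Real.exp (-δ * x ^ (1 : ℝ)))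
      (Set.Ioi 0) := integrableOn_rpow_mul_exp_neg_mul_rpow (by norm_num) (by norm_num) hδ
  refine MeasureTheory.Integrable.mono' h1 ?_ ?_
  · exact (continuousOn_F t δ μ).aestronglyMeasurable measurableSet_Ioi
  · refine (ae_restrict_iff' measurableSet_Ioi).mpr (Eventually.of_forall fun u hu => ?_)
    rw [norm_F, Real.rpow_one]
    refine le_of_eq ?_
    have h2 : u ^ (-1 / 2 : ℝ) = 1 / Real.sqrt u := by
      rw [Real.sqrt_eq_rpow, one_div, ← Real.rpow_neg (le_of_lt hu)]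
      norm_num
    rw [h2]
    ring

lemma integral_F {t δ : ℝ} {μ : ℕ} (hδ : 0 < δ) :
    ∫ u in Set.Ioi 0, F t μ δ u =
      (1 / rr μ δ) ^ (1 / 2 - t * Complex.I : ℂ) * Complex.Gamma (1 / 2 - t * Complex.I) := by
  rw [← laplace (by simp) (by simp [rr, hδ])]
  refine setIntegral_congr_fun measurableSet_Ioi fun u hu => ?_
  exact F_eq hu

lemma intervalIntegrable_F {t δ a b : ℝ} {μ : ℕ} (hδ : 0 < δ) (ha : 0 ≤ a) (hb : 0 ≤ b) :
    IntervalIntegrable (F t μ δ) volume a b := by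
  have h0 := integrableOn_F (t := t) (μ := μ) hδ
  rw [intervalIntegrable_iff]
  refine h0.mono_set ?_
  intro x hx
  have := hx.1
  exact lt_of_le_of_lt (le_min ha hb) this

lemma dist_F {δ t R : ℝ} {μ : ℕ} (hδ : 0 < δ) (ht : 1 ≤ t) (hR : t ≤ R) (hμ : 1 ≤ μ) :
    ‖(1 / rr μ δ) ^ (1 / 2 - t * Complex.I : ℂ) * Complex.Gamma (1 / 2 - t * Complex.I) -
      ∫ u in (0 : ℝ)..R, F t μ δ u‖ ≤ 4 * (1 / Real.sqrt R) := by
  rw [← integral_F hδ]
  have h1 := intervalIntegral_tendsto_integral_Ioi (μ := volume) 0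
    (integrableOn_F (t := t) (μ := μ) hδ) (tendsto_id (α := ℝ) (x := atTop))
  have h2 := (h1.sub_const (∫ u in (0 : ℝ)..R, F t μ δ u)).norm
  refine le_of_tendsto h2 ?_
  filter_upwards [eventually_ge_atTop R] with R' hR'
  have hR0 : 0 ≤ R := by linarith
  simp only [id_eq]
  rw [intervalIntegral.integral_interval_sub_left
    (intervalIntegrable_F hδ le_rfl (hR0.trans hR')) (intervalIntegrable_F hδ le_rfl hR0)]
  exact tail_bound hδ.le ht hR hμ hR'

lemma tendsto_F {t R : ℝ} {μ : ℕ} (hR : 0 ≤ R) :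
    Tendsto (fun δ => ∫ u in (0 : ℝ)..R, F t μ δ u) (𝓝[>] 0) (𝓝 (∫ u in (0 : ℝ)..R, F t μ 0 u)) := by
  refine intervalIntegral.tendsto_integral_filter_of_dominated_convergence
    (fun u => u ^ (-1 / 2 : ℝ)) ?_ ?_ ?_ ?_
  · refine Eventually.of_forall fun δ => ?_
    rw [Set.uIoc_of_le hR]
    exact ((continuousOn_F t δ μ).mono fun x hx => hx.1).aestronglyMeasurable measurableSet_Ioc
  · filter_upwards [self_mem_nhdsWithin] with δ hδ
    refine Eventually.of_forall fun u hu => ?_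
    rw [Set.uIoc_of_le hR] at hu
    have hu0 : 0 < u := hu.1
    have h2 : u ^ (-1 / 2 : ℝ) = 1 / Real.sqrt u := by
      rw [Real.sqrt_eq_rpow, one_div, ← Real.rpow_neg hu0.le]
      norm_num
    rw [norm_F, h2]
    have h3 : Real.exp (-δ * u) ≤ 1 := by
      rw [Real.exp_le_one_iff]
      have : (0 : ℝ) < δ := hδ
      nlinarith
    gcongr
  · exact intervalIntegral.intervalIntegrable_rpow' (by norm_num)
  · refine Eventually.of_forall fun u _ => ?_
    have : Continuous fun δ => F t μ δ u := by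
      unfold F
      fun_prop
    exact (this.tendsto 0).mono_left nhdsWithin_le_nhds

lemma inv_rr {μ : ℕ} (hμ : 1 ≤ μ) : 1 / rr μ 0 = (1 / (2 * Real.pi * μ) : ℝ) * Complex.I := by
  have h1 : (0 : ℝ) < μ := by exact_mod_cast hμ
  have h2 : (μ : ℂ) ≠ 0 := by exact_mod_cast h1.ne'
  have h3 : (Real.pi : ℂ) ≠ 0 := by exact_mod_cast Real.pi_ne_zero
  unfold rr
  push_cast
  field_simp
  linear_combination (2 * Real.pi * μ : ℂ) * Complex.I_sq

lemma tendsto_main {t : ℝ} {μ : ℕ} (hμ : 1 ≤ μ) :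
    Tendsto (fun δ : ℝ => (1 / rr μ δ) ^ (1 / 2 - t * Complex.I : ℂ)) (𝓝[>] 0)
      (𝓝 ((1 / rr μ 0) ^ (1 / 2 - t * Complex.I : ℂ))) := by
  have h1 : (0 : ℝ) < μ := by exact_mod_cast hμ
  have hr : rr μ 0 ≠ 0 := by
    unfold rr
    have h2 : (μ : ℂ) ≠ 0 := by exact_mod_cast h1.ne'
    have h3 : (Real.pi : ℂ) ≠ 0 := by exact_mod_cast Real.pi_ne_zero
    simp [h2]
  have hc : ContinuousAt (fun δ : ℝ => 1 / rr μ δ) 0 := by
    refine ContinuousAt.div continuousAt_const ?_ hr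
    unfold rr
    fun_prop
  have hs : 1 / rr μ 0 ∈ Complex.slitPlane := by
    rw [inv_rr hμ, Complex.mem_slitPlane_iff]
    right
    have : (0 : ℝ) < 1 / (2 * Real.pi * μ) := by positivity
    simp only [Complex.mul_im, Complex.ofReal_re, Complex.I_im, Complex.ofReal_im, Complex.I_re]
    nlinarith
  have h4 := (continuousAt_cpow_const (b := (1 / 2 - t * Complex.I : ℂ)) hs).comp_of_eq hc rfl
  exact h4.tendsto.mono_left nhdsWithin_le_nhds

lemma main_eq {t : ℝ} {μ : ℕ} (hμ : 1 ≤ μ) :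
    (1 / rr μ 0) ^ (1 / 2 - t * Complex.I : ℂ) * Complex.Gamma (1 / 2 - t * Complex.I) =
      chiT t * (((1 / Real.sqrt μ : ℝ) : ℂ) * ei (t * Real.log μ)) := by
  have h1 : (0 : ℝ) < μ := by exact_mod_cast hμ
  have h0 : (0 : ℝ) < 1 / (2 * Real.pi * μ) := by positivity
  have hz : ((1 / (2 * Real.pi * μ) : ℝ) : ℂ) * Complex.I ≠ 0 :=
    mul_ne_zero (by exact_mod_cast h0.ne') Complex.I_ne_zero
  have hl : Complex.log (((1 / (2 * Real.pi * μ) : ℝ) : ℂ) * Complex.I) =
      ((-(Real.log (2 * Real.pi) + Real.log μ) : ℝ) : ℂ) + Real.pi / 2 * Complex.I := by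
    rw [Complex.log_ofReal_mul h0 Complex.I_ne_zero, Complex.log_I]
    congr 2
    rw [one_div, Real.log_inv, Real.log_mul (by positivity) h1.ne']
  have h2 : ((2 : ℂ) * Real.pi) = ((2 * Real.pi : ℝ) : ℂ) := by push_cast; ring
  have h3 : ((2 * Real.pi : ℝ) : ℂ) ≠ 0 := by exact_mod_cast Real.two_pi_pos.ne'
  unfold chiT ei
  rw [inv_rr hμ, Complex.cpow_def_of_ne_zero hz, hl, inv_sqrt_eq h1, h2,
    Complex.cpow_def_of_ne_zero h3, ← Complex.ofReal_log Real.two_pi_pos.le]
  have e : ∀ a b c d e' G : ℂ, Complex.exp (a + b + c + d + e') * G =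
      G * Complex.exp a * Complex.exp b * Complex.exp c * (Complex.exp d * Complex.exp e') := by
    intro a b c d e' G
    rw [Complex.exp_add, Complex.exp_add, Complex.exp_add, Complex.exp_add]
    ring
  push_cast
  rw [← e]
  congr 2
  linear_combination (-(Real.pi : ℂ) * t / 2) * Complex.I_sq

theorem z2 : TZ2 := by
  refine ⟨4, by norm_num, fun t R μ ht hR hμ => ?_⟩
  have hR0 : 0 ≤ R := by linarith
  have h1 : (∫ u in (0 : ℝ)..R, ((1 / Real.sqrt u : ℝ) : ℂ) *
      ei (2 * Real.pi * μ * u - t * Real.log u)) = ∫ u in (0 : ℝ)..R, F t μ 0 u := by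
    congr 1
    ext u
    unfold F
    simp
  rw [h1, ← main_eq hμ, norm_sub_rev]
  have h2 := ((tendsto_main (t := t) hμ).mul_const
    (Complex.Gamma (1 / 2 - t * Complex.I))).sub (tendsto_F (t := t) (μ := μ) hR0)
  refine (le_of_tendsto (b := 4 * (1 / Real.sqrt R)) h2.norm ?_).trans (le_of_eq ?_)
  · filter_upwards [self_mem_nhdsWithin] with δ hδ
    exact dist_F hδ ht hR hμ
  · ring

end Pool.Agent.H22.Cubic
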